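import Pool.Agent.L0h17.WT.Stm3

/-!
# Board WT, module UNI: universality of the localization
-/

set_option autoImplicit false

namespace Pool.Agent.L0h95.WT

open MvPolynomial Pool.Agent.N103.V Pool.Agent.N103 Pool.Agent.L0h17.WT

/-- **UNI.** -/
theorem t_UNI : S_UNI := by
  intro V F K s hF D₀ Gi₀ hD₀ hG₀ hall L _ _ φ D Gi hD hG U h1 h2 h3 h4
  have hun : IsUnit (φ F) := ⟨⟨φ F, Gi, hG, by rw [mul_comm]; exact hG⟩, rfl⟩
  have hpow : ∀ y : Submonoid.powers F, IsUnit (φ (y : MvPolynomial V ℂ)) := by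
    rintro ⟨y, n, rfl⟩
    show IsUnit (φ (F ^ n))
    rw [map_pow]
    exact hun.pow n
  obtain ⟨g, hg⟩ : ∃ g : Localization.Away F →ₐ[ℂ] L,
      ∀ p, g (algebraMap (MvPolynomial V ℂ) (Localization.Away F) p) = φ p :=
    ⟨IsLocalization.liftAlgHom (M := Submonoid.powers F) (f := φ) hpow,
      fun p => IsLocalization.lift_eq _ p⟩
  have hder : ∀ (i : V) (x : Localization.Away F), g (D₀ i x) = D i (g x) := by
    intro i x
    obtain ⟨⟨h, ⟨_, n, rfl⟩⟩, hx⟩ := IsLocalization.surj (Submonoid.powers F) x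
    have hx' : x * algebraMap (MvPolynomial V ℂ) (Localization.Away F) (F ^ n) =
      algebraMap (MvPolynomial V ℂ) (Localization.Away F) h := hx
    have e1 := congrArg (fun z => g (D₀ i z)) hx'
    have e2 := congrArg (fun z => D i (g z)) hx'
    simp only [Derivation.leibniz, smul_eq_mul, map_add, map_mul, hD₀, hg, hD] at e1 e2
    have e3 : φ (F ^ n) * g (D₀ i x) = φ (F ^ n) * D i (g x) := by
      linear_combination e1 - e2
    exact (hpow ⟨F ^ n, n, rfl⟩).mul_left_cancel e3
  have hGi : g Gi₀ = Gi := by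
    have e1 := congrArg g hG₀
    rw [map_mul, map_one, hg] at e1
    linear_combination Gi * e1 - g Gi₀ * hG
  have hnab : ∀ (i : V) (x : Localization.Away F),
      g (nab (IsScalarTower.toAlgHom ℂ (MvPolynomial V ℂ) (Localization.Away F)) D₀ F Gi₀ s i x) =
        nab φ D F Gi s i (g x) := by
    intro i x
    rw [nab_apply, nab_apply, map_add, map_mul, map_mul, map_mul, hder, hder, hGi,
      AlgHom.commutes]
    have e1 : g ((IsScalarTower.toAlgHom ℂ (MvPolynomial V ℂ) (Localization.Away F)) F) = φ F :=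
      hg F
    rw [e1]
  have hfin := hall (U.comap g.toLinearMap) ?_ ?_ ?_ ?_
  · have e1 : g (algebraMap (MvPolynomial V ℂ) (Localization.Away F) K) ∈ U := hfin
    rwa [hg] at e1
  · intro i x hx
    show g (algebraMap (MvPolynomial V ℂ) (Localization.Away F) (X i) * x) ∈ U
    rw [map_mul, hg]
    exact h1 i _ hx
  · intro i x hx
    show g (nab (IsScalarTower.toAlgHom ℂ (MvPolynomial V ℂ) (Localization.Away F)) D₀ F Gi₀ s i x)
      ∈ U
    rw [hnab]
    exact h2 i _ hx
  · show g (algebraMap (MvPolynomial V ℂ) (Localization.Away F) F) ∈ U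
    rw [hg]
    exact h3
  · intro i
    show g (algebraMap (MvPolynomial V ℂ) (Localization.Away F) (pderiv i F)) ∈ U
    rw [hg]
    exact h4 i

end Pool.Agent.L0h95.WT
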